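import Pool.Agent.Helper20.OC.Parity

/-!
No Dehn filling of the census manifold `v2503` is orderable.
-/

namespace Pool.Agent.Results.MP_b87b3b_gt.NoOrderableFilling

open Pool.Agent.Helper20.OC

theorem map_relW {G H : Type} [Group G] [Group H] (f : G →* H) (v z : G) :
    relW (f v) (f z) = f (relW v z) := by
  simp [relW]

theorem map_mu {G H : Type} [Group G] [Group H] (f : G →* H) (v z : G) :
    mu (f v) (f z) = f (mu v z) := by
  simp [mu]

theorem map_lam {G H : Type} [Group G] [Group H] (f : G →* H) (v z : G) :
    lam (f v) (f z) = f (lam v z) := by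
  simp [lam]

/-- For every nontrivial element `α` of the peripheral subgroup of the fundamental group of
`v2503`, the fundamental group of the Dehn filling which kills `α` is not left-orderable. -/
theorem result : ∀ α : fundGroup v2503 0, (α : FaceGroup v2503) ∈ peripheral v2503 0 0 → α ≠ 1 →
    ¬ LeftOrderable (fillingGroup v2503 0 α) := by
  intro α hα hα1 hlo
  obtain ⟨hnt, lt, hlt, hinv⟩ := hlo
  obtain ⟨p, q, hpq⟩ := mem_per (peripheral_le hα)
  let N : Subgroup (fundGroup v2503 0) := Subgroup.normalClosure {α}
  let π : fundGroup v2503 0 →* fillingGroup v2503 0 α := QuotientGroup.mk' N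
  let v' : fundGroup v2503 0 := ⟨gv, gv_mem⟩
  let z' : fundGroup v2503 0 := ⟨gz, gz_mem⟩
  have hW' : relW v' z' = 1 := by
    apply Subtype.ext
    have h := map_relW (fundGroup v2503 0).subtype v' z'
    exact h.symm.trans all_eight.2.2.2.2.2.2.2.2
  have hαe : α = mu v' z' ^ p * lam v' z' ^ q := by
    apply Subtype.ext
    have h1 := map_mu (fundGroup v2503 0).subtype v' z'
    have h2 := map_lam (fundGroup v2503 0).subtype v' z'
    change (α : FaceGroup v2503) = (fundGroup v2503 0).subtype (mu v' z' ^ p * lam v' z' ^ q)
    rw [map_mul, map_zpow, map_zpow, ← h1, ← h2]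
    exact hpq
  have hπα : π α = 1 :=
    (QuotientGroup.eq_one_iff α).2 (Subgroup.subset_normalClosure (Set.mem_singleton α))
  have hW : relW (π v') (π z') = 1 := by rw [map_relW, hW', map_one]
  have hpq' : mu (π v') (π z') ^ p * lam (π v') (π z') ^ q = 1 := by
    rw [map_mu, map_lam, ← map_zpow, ← map_zpow, ← map_mul, ← hαe, hπα]
  -- `v`, `z` generate the filling group
  have hgen : Subgroup.closure {π v', π z'} = (⊤ : Subgroup (fillingGroup v2503 0 α)) := by
    rw [eq_top_iff]
    rintro x -
    obtain ⟨g, rfl⟩ := QuotientGroup.mk'_surjective N x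
    have hg : (g : FaceGroup v2503) ∈ phi.range := by
      rw [phi_range, ← fund_eq]
      exact g.2
    obtain ⟨w, hw⟩ := hg
    have h1 : FreeGroup.lift ![v', z'] w = g := by
      apply Subtype.ext
      rw [← hw]
      have h2 : ((fundGroup v2503 0).subtype.comp (FreeGroup.lift ![v', z'])) = phi := by
        apply FreeGroup.ext_hom
        intro i
        fin_cases i <;> simp [phi, v', z']
      exact DFunLike.congr_fun h2 w
    have h3 : π.comp (FreeGroup.lift ![v', z']) = FreeGroup.lift ![π v', π z'] := by
      apply FreeGroup.ext_hom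
      intro i
      fin_cases i <;> simp
    have h4 : FreeGroup.lift ![π v', π z'] w = π g := by
      rw [← h3, ← h1]
      rfl
    have h5 : π g ∈ (FreeGroup.lift ![π v', π z']).range := ⟨w, h4⟩
    rw [FreeGroup.range_lift_eq_closure] at h5
    have h6 : Set.range ![π v', π z'] = {π v', π z'} := by
      ext x
      simp [or_comm]
    rw [h6] at h5
    exact h5
  let _ : LinearOrder (fillingGroup v2503 0 α) :=
    @linearOrderOfSTO _ lt hlt (Classical.decRel _)
  have hl : ∀ f g h : fillingGroup v2503 0 α, g < h → f * g < f * h := hinv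
  by_cases hp : p = 0
  · subst hp
    rw [zpow_zero, one_mul] at hpq' hαe
    have hq : q ≠ 0 := by
      rintro rfl
      exact hα1 (by rw [hαe, zpow_zero])
    have h1 := core_zero hl hW hq hpq'
    -- the parity
    let e : fundGroup v2503 0 →* Multiplicative (ZMod 2) := eps.comp (fundGroup v2503 0).subtype
    have ev : e v' = 1 := eps_gv
    have ez : e z' = Multiplicative.ofAdd 1 := eps_gz
    have hN : N ≤ e.ker := by
      apply Subgroup.normalClosure_le_normal
      rintro x rfl
      change e x = 1
      rw [hαe, map_zpow, ← map_lam, ev, ez]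
      have : lam (1 : Multiplicative (ZMod 2)) (Multiplicative.ofAdd 1) = 1 := by decide
      rw [this, one_zpow]
    have h2 : v' ^ 2 * z' ∈ N := by
      rw [← QuotientGroup.eq_one_iff]
      exact h1
    have h3 : e (v' ^ 2 * z') = 1 := hN h2
    rw [map_mul, map_pow, ev, ez] at h3
    revert h3
    decide
  · exact core hl hgen hW hp hpq'

end Pool.Agent.Results.MP_b87b3b_gt.NoOrderableFilling
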