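import Pool.Agent.Helper20.SE.S29

/-!
# `PD_3`-groups which are isomorphic to a proper subgroup of finite index

Let `G` be a `PD_3`-group (type `FP` over `ℤ[G]`, `H^i(G; ℤ[G]) = 0` for `i ≠ 3`,
`H^3(G; ℤ[G]) ≅ ℤ`), orientable or not.  If `G` is isomorphic to a proper subgroup of finite index
of itself, then `G` is virtually representable onto `ℤ`.
-/

set_option autoImplicit false

open CategoryTheory

namespace Pool.Agent.Helper20.Retired.ProperSelfEmbedding

theorem result (G : Type) [Group G]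
    (hFP : ∃ P : ProjectiveResolution
        (Rep.equivalenceModuleMonoidAlgebra.functor.obj (Rep.trivial ℤ G ℤ)),
      (∃ n : ℕ, ∀ i : ℕ, n < i → Limits.IsZero (P.complex.X i)) ∧
      (∀ i : ℕ, Module.Finite (MonoidAlgebra ℤ G) (P.complex.X i).carrier))
    (hvan : ∀ i : ℕ, i ≠ 3 →
      Subsingleton (groupCohomology (Rep.ofMulAction ℤ G G) i).carrier)
    (hthree : Nonempty ((groupCohomology (Rep.ofMulAction ℤ G G) 3).carrier ≃+ ℤ))
    (H : Subgroup G) (hH : H.index ≠ 0) (hH1 : H ≠ ⊤) (e : G ≃* H) :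
    ∃ K : Subgroup G, K.index ≠ 0 ∧
      ∃ f : K →* Multiplicative ℤ, Function.Surjective f := by
  obtain ⟨R⟩ := Pool.ACH.resData_of_frozen G hFP hvan hthree
  obtain ⟨P0, P1, P2, P3, _, _, _, _, _, _, _, _, ⟨D⟩⟩ := R.exists_pre
  exact Pool.ACH.selfMap_main D H hH hH1 e

end Pool.Agent.Helper20.Retired.ProperSelfEmbedding
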